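import Pool.Agent.W745.RW.Stm

set_option autoImplicit false

open MeasureTheory Filter Topology Complex
open scoped ContDiff

namespace Pool.Agent.W537.RW

open Pool.Agent.W745.RW

theorem tSSt : SSt := by
  intro c r F1 F2 h1 h2 hdiv
  set s : Set ℂ := Metric.ball c r with hs
  have hso : IsOpen s := Metric.isOpen_ball
  have hsc : Convex ℝ s := convex_ball c r
  let L1 : ℂ →L[ℝ] (ℂ →L[ℝ] ℂ) := ContinuousLinearMap.smulRightL ℝ ℂ ℂ Complex.reCLM
  let L2 : ℂ →L[ℝ] (ℂ →L[ℝ] ℂ) := ContinuousLinearMap.smulRightL ℝ ℂ ℂ Complex.imCLM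
  have hL1 : ∀ w v : ℂ, L1 w v = (v.re : ℝ) • w := fun w v => rfl
  have hL2 : ∀ w v : ℂ, L2 w v = (v.im : ℝ) • w := fun w v => rfl
  let om : ℂ → ℂ →L[ℝ] ℂ := fun z => L1 (- F2 z) + L2 (F1 z)
  have hom : ContDiffOn ℝ ∞ om s :=
    (L1.contDiff.comp_contDiffOn h2.neg).add (L2.contDiff.comp_contDiffOn h1)
  have hd1 : ∀ a ∈ s, DifferentiableAt ℝ F1 a := fun a ha =>
    (h1.differentiableOn (by simp)).differentiableAt (hso.mem_nhds ha)
  have hd2 : ∀ a ∈ s, DifferentiableAt ℝ F2 a := fun a ha =>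
    (h2.differentiableOn (by simp)).differentiableAt (hso.mem_nhds ha)
  have hdd : ∀ a ∈ s, HasFDerivAt om (L1.comp (- fderiv ℝ F2 a) + L2.comp (fderiv ℝ F1 a)) a := by
    intro a ha
    exact (L1.hasFDerivAt.comp a (hd2 a ha).hasFDerivAt.neg).add
      (L2.hasFDerivAt.comp a (hd1 a ha).hasFDerivAt)
  have hlin : ∀ (G : ℂ →L[ℝ] ℂ) (v : ℂ), G v = (v.re : ℝ) • G 1 + (v.im : ℝ) • G I := by
    intro G v
    conv_lhs => rw [show v = (v.re : ℝ) • (1 : ℂ) + (v.im : ℝ) • I by
      apply Complex.ext <;> simp]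
    rw [map_add, map_smul, map_smul]
  have hdo : DifferentiableOn ℝ om s :=
    fun a ha => (hdd a ha).differentiableAt.differentiableWithinAt
  obtain ⟨χ, hχ⟩ := hsc.exists_forall_hasFDerivAt_of_fderiv_symmetric hso hdo (by
      intro a ha x y
      rw [(hdd a ha).fderiv]
      simp only [_root_.add_apply, ContinuousLinearMap.comp_apply,
        _root_.neg_apply, hL1, hL2]
      rw [hlin (fderiv ℝ F2 a) x, hlin (fderiv ℝ F1 a) x, hlin (fderiv ℝ F2 a) y,
        hlin (fderiv ℝ F1 a) y]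
      have h3 : fderiv ℝ F1 a 1 = - fderiv ℝ F2 a I := by
        have := hdiv a ha
        unfold dx dy at this
        exact eq_neg_of_add_eq_zero_left this
      rw [h3]
      simp only [Complex.real_smul]
      ring)
  refine ⟨χ, ?_, ?_⟩
  · rw [contDiffOn_infty_iff_fderiv_of_isOpen hso]
    refine ⟨fun a ha => (hχ a ha).differentiableAt.differentiableWithinAt, ?_⟩
    exact hom.congr (fun a ha => (hχ a ha).fderiv)
  · intro z hz
    unfold dx dy
    rw [(hχ z hz).fderiv]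
    simp only [om, _root_.add_apply, hL1, hL2]
    constructor <;> simp

end Pool.Agent.W537.RW
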